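import Mathlib

/-!
# A quandle structure on the 2-sphere that is neither trivial nor spherical

The operation is `u * v = (rotation of u about the third axis by the angle 2 pi exp (u_2 - v_2))`.
Right translations preserve heights, the height of `u` decides by which angle it is turned, and
the angle for `u = v` is `2 pi`.
-/

open Real

namespace Pool.Agent.Results.MP_6238b5_al.TwistQuandle

/-- Euclidean 3-space. -/
abbrev E3 : Type := EuclideanSpace ℝ (Fin 3)

/-- The unit sphere in Euclidean 3-space, with the subspace topology. -/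
abbrev S2 : Type := Metric.sphere (0 : E3) 1

/-- `op` is a topological quandle structure on the 2-sphere. -/
structure IsTopQuandle (op : S2 → S2 → S2) : Prop where
  idem : ∀ x, op x x = x
  bij : ∀ y, Function.Bijective (fun x => op x y)
  distrib : ∀ x y z, op (op x y) z = op (op x z) (op y z)
  cont : Continuous (fun p : S2 × S2 => op p.1 p.2)

/-- The trivial quandle operation. -/
def trivialOp (u _v : S2) : S2 := u

/-- The image of the vector `u` under the rotation by the angle `ψ` about the axis through `0` and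
the unit vector `v`, in the positive sense with respect to `v` (Rodrigues' formula). -/
noncomputable def rotVec (ψ : ℝ) (v u : E3) : E3 :=
  cos ψ • u + sin ψ • WithLp.toLp 2 (crossProduct v.ofLp u.ofLp)
    + ((1 - cos ψ) * inner ℝ v u) • v

theorem mem_sphere_iff (x : E3) :
    x ∈ Metric.sphere (0 : E3) 1 ↔ x 0 ^ 2 + x 1 ^ 2 + x 2 ^ 2 = 1 := by
  rw [mem_sphere_zero_iff_norm]
  have h := EuclideanSpace.real_norm_sq_eq x
  rw [Fin.sum_univ_three] at h
  constructor
  · intro h1
    rw [← h, h1]; norm_num
  · intro h1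
    rw [h1] at h
    have h0 : 0 ≤ ‖x‖ := norm_nonneg x
    nlinarith

theorem inner_eq (v u : E3) : inner ℝ v u = v 0 * u 0 + v 1 * u 1 + v 2 * u 2 := by
  simp [PiLp.inner_apply, Fin.sum_univ_three, mul_comm]

theorem rotVec_zero (ψ : ℝ) (v u : E3) :
    rotVec ψ v u 0 = cos ψ * u 0 + sin ψ * (v 1 * u 2 - v 2 * u 1)
      + (1 - cos ψ) * (v 0 * u 0 + v 1 * u 1 + v 2 * u 2) * v 0 := by
  simp [rotVec, inner_eq, cross_apply]

theorem rotVec_one (ψ : ℝ) (v u : E3) :
    rotVec ψ v u 1 = cos ψ * u 1 + sin ψ * (v 2 * u 0 - v 0 * u 2)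
      + (1 - cos ψ) * (v 0 * u 0 + v 1 * u 1 + v 2 * u 2) * v 1 := by
  simp [rotVec, inner_eq, cross_apply]

theorem rotVec_two (ψ : ℝ) (v u : E3) :
    rotVec ψ v u 2 = cos ψ * u 2 + sin ψ * (v 0 * u 1 - v 1 * u 0)
      + (1 - cos ψ) * (v 0 * u 0 + v 1 * u 1 + v 2 * u 2) * v 2 := by
  simp [rotVec, inner_eq, cross_apply]

theorem rotVec_mem (ψ : ℝ) (v u : S2) : rotVec ψ v u ∈ Metric.sphere (0 : E3) 1 := by
  have hu := (mem_sphere_iff u).1 u.2
  have hv := (mem_sphere_iff v).1 v.2
  have hP := cos_sq_add_sin_sq ψ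
  rw [mem_sphere_iff, rotVec_zero, rotVec_one, rotVec_two]
  generalize (u : E3) 0 = u0 at *
  generalize (u : E3) 1 = u1 at *
  generalize (u : E3) 2 = u2 at *
  generalize (v : E3) 0 = v0 at *
  generalize (v : E3) 1 = v1 at *
  generalize (v : E3) 2 = v2 at *
  generalize cos ψ = c at *
  generalize sin ψ = s at *
  linear_combination (c ^ 2 + s ^ 2 * (v0 ^ 2 + v1 ^ 2 + v2 ^ 2)) * hu
    + (s ^ 2 + (1 - c) ^ 2 * (v0 * u0 + v1 * u1 + v2 * u2) ^ 2) * hv
    + (1 - (v0 * u0 + v1 * u1 + v2 * u2) ^ 2) * hP

/-- The spherical quandle operation `u *_ψ v`: rotate `u` by the angle `ψ` about `v`. -/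
noncomputable def sphericalOp (ψ : ℝ) (u v : S2) : S2 := ⟨rotVec ψ v u, rotVec_mem ψ v u⟩

/-- `e` carries the operation `op` to the operation `op'`. -/
def Respects (e : S2 → S2) (op op' : S2 → S2 → S2) : Prop :=
  ∀ u v, e (op u v) = op' (e u) (e v)

/-- Rotation about the third axis by the angle `t`. -/
noncomputable def turn (t : ℝ) (u : E3) : E3 :=
  !₂[cos t * u 0 - sin t * u 1, sin t * u 0 + cos t * u 1, u 2]

theorem turn_mem (t : ℝ) (u : S2) : turn t u ∈ Metric.sphere (0 : E3) 1 := by
  have hu := (mem_sphere_iff u).1 u.2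
  have hP := cos_sq_add_sin_sq t
  rw [mem_sphere_iff]
  simp only [turn, PiLp.toLp_apply, Matrix.cons_val_zero, Matrix.cons_val_one, Matrix.cons_val]
  linear_combination hu + ((u : E3) 0 ^ 2 + (u : E3) 1 ^ 2) * hP

/-- The twist operation: turn `u` about the third axis by the angle `2 π exp (u_2 - v_2)`. -/
noncomputable def twistOp (u v : S2) : S2 :=
  ⟨turn (2 * π * exp ((u : E3) 2 - (v : E3) 2)) u, turn_mem _ u⟩

theorem turn_two (t : ℝ) (u : E3) : turn t u 2 = u 2 := by simp [turn]

theorem turn_add (a b : ℝ) (u : E3) : turn a (turn b u) = turn (a + b) u := by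
  ext i
  fin_cases i
  · simp [turn, cos_add, sin_add]; ring
  · simp [turn, cos_add, sin_add]; ring
  · simp [turn]

theorem turn_zero (u : E3) : turn 0 u = u := by
  ext i
  fin_cases i <;> simp [turn]

theorem turn_two_pi (u : E3) : turn (2 * π) u = u := by
  ext i
  fin_cases i <;> simp [turn]

theorem ext3 {x y : E3} (h0 : x 0 = y 0) (h1 : x 1 = y 1) (h2 : x 2 = y 2) : x = y := by
  ext i
  fin_cases i
  · exact h0
  · exact h1
  · exact h2

theorem continuous_coord (i : Fin 3) : Continuous (fun x : E3 => x i) := by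
  fun_prop

theorem isTopQuandle_twistOp : IsTopQuandle twistOp where
  idem x := by
    apply Subtype.ext
    simp [twistOp, turn_two_pi]
  bij y := by
    rw [Function.bijective_iff_has_inverse]
    refine ⟨fun w => ⟨turn (-(2 * π * exp ((w : E3) 2 - (y : E3) 2))) w, turn_mem _ w⟩, ?_, ?_⟩
    · intro x
      apply Subtype.ext
      simp only [twistOp, turn_two, turn_add]
      rw [neg_add_cancel, turn_zero]
    · intro x
      apply Subtype.ext
      simp only [twistOp, turn_two, turn_add]
      rw [add_neg_cancel, turn_zero]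
  distrib x y z := by
    apply Subtype.ext
    simp only [twistOp, turn_two, turn_add]
    rw [add_comm]
  cont := by
    apply Continuous.subtype_mk
    apply (PiLp.continuous_toLp 2 _).comp
    apply continuous_pi
    have h1 : ∀ i : Fin 3, Continuous (fun p : S2 × S2 => (p.1 : E3) i) := fun i =>
      (continuous_coord i).comp (continuous_subtype_val.comp continuous_fst)
    have h2 : ∀ i : Fin 3, Continuous (fun p : S2 × S2 => (p.2 : E3) i) := fun i =>
      (continuous_coord i).comp (continuous_subtype_val.comp continuous_snd)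
    have h3 : Continuous (fun p : S2 × S2 => 2 * π * exp ((p.1 : E3) 2 - (p.2 : E3) 2)) :=
      continuous_const.mul (continuous_exp.comp ((h1 2).sub (h2 2)))
    intro i
    fin_cases i
    · exact ((continuous_cos.comp h3).mul (h1 0)).sub ((continuous_sin.comp h3).mul (h1 1))
    · exact ((continuous_sin.comp h3).mul (h1 0)).add ((continuous_cos.comp h3).mul (h1 1))
    · exact h1 2

/-- The three test points: east point, north pole, south pole. -/
noncomputable def east : S2 := ⟨!₂[1, 0, 0], by rw [mem_sphere_iff]; simp⟩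
noncomputable def north : S2 := ⟨!₂[0, 0, 1], by rw [mem_sphere_iff]; simp⟩
noncomputable def south : S2 := ⟨!₂[0, 0, -1], by rw [mem_sphere_iff]; simp⟩

theorem twist_north (v : S2) : twistOp north v = north := by
  apply Subtype.ext
  apply ext3 <;> simp [twistOp, turn, north]

theorem twist_south (v : S2) : twistOp south v = south := by
  apply Subtype.ext
  apply ext3 <;> simp [twistOp, turn, south]

theorem east_ne_north : east ≠ north := by
  intro h
  have := congrArg (fun x : S2 => (x : E3) 0) h
  simp [east, north] at this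

theorem east_ne_south : east ≠ south := by
  intro h
  have := congrArg (fun x : S2 => (x : E3) 0) h
  simp [east, south] at this

theorem north_ne_south : north ≠ south := by
  intro h
  have := congrArg (fun x : S2 => (x : E3) 2) h
  simp [north, south] at this
  linarith

theorem twist_east_ne : twistOp east north ≠ east := by
  intro h
  have h0 := congrArg (fun x : S2 => (x : E3) 0) h
  simp only [twistOp, turn, east, north, PiLp.toLp_apply, Matrix.cons_val_zero,
    Matrix.cons_val_one, Matrix.cons_val, mul_one, mul_zero, sub_zero, zero_sub] at h0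
  have hpi := pi_pos
  have he : 0 < exp (-1) := exp_pos _
  have he1 : exp (-1) < 1 := by
    rw [exp_lt_one_iff]; norm_num
  rw [cos_eq_one_iff_of_lt_of_lt (by nlinarith) (by nlinarith)] at h0
  nlinarith

theorem sum_sq_zero {a b c : ℝ} (h : a ^ 2 + b ^ 2 + c ^ 2 = 0) : a = 0 ∧ b = 0 ∧ c = 0 := by
  refine ⟨?_, ?_, ?_⟩
  · have : a ^ 2 = 0 := by nlinarith [sq_nonneg a, sq_nonneg b, sq_nonneg c]
    exact pow_eq_zero_iff (two_ne_zero) |>.1 this
  · have : b ^ 2 = 0 := by nlinarith [sq_nonneg a, sq_nonneg b, sq_nonneg c]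
    exact pow_eq_zero_iff (two_ne_zero) |>.1 this
  · have : c ^ 2 = 0 := by nlinarith [sq_nonneg a, sq_nonneg b, sq_nonneg c]
    exact pow_eq_zero_iff (two_ne_zero) |>.1 this

theorem fixed_spherical {ψ : ℝ} (h0 : 0 < ψ) (h1 : ψ < 2 * π) {u w : S2}
    (h : sphericalOp ψ u w = u) : u = w ∨ (u : E3) = -(w : E3) := by
  have hu := (mem_sphere_iff u).1 u.2
  have hw := (mem_sphere_iff w).1 w.2
  have hc : cos ψ ≠ 1 := by
    intro hc
    rw [cos_eq_one_iff_of_lt_of_lt (by linarith) h1] at hc
    linarith
  have e0 := congrArg (fun x : S2 => (x : E3) 0) h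
  have e1 := congrArg (fun x : S2 => (x : E3) 1) h
  have e2 := congrArg (fun x : S2 => (x : E3) 2) h
  simp only [sphericalOp, rotVec_zero, rotVec_one, rotVec_two] at e0 e1 e2
  have key : (1 - cos ψ) * (((w : E3) 0 * (u : E3) 0 + (w : E3) 1 * (u : E3) 1
      + (w : E3) 2 * (u : E3) 2) ^ 2 - 1) = 0 := by
    linear_combination (u : E3) 0 * e0 + (u : E3) 1 * e1 + (u : E3) 2 * e2
      + (1 - cos ψ) * hu
  have hd : ((w : E3) 0 * (u : E3) 0 + (w : E3) 1 * (u : E3) 1
      + (w : E3) 2 * (u : E3) 2) ^ 2 = 1 := by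
    rcases mul_eq_zero.1 key with h' | h'
    · exact absurd (by linarith) hc
    · linarith
  rcases eq_or_eq_neg_of_sq_eq_sq _ _ (hd.trans (one_pow 2).symm) with hd | hd
  · left
    have hs : ((u : E3) 0 - (w : E3) 0) ^ 2 + ((u : E3) 1 - (w : E3) 1) ^ 2
        + ((u : E3) 2 - (w : E3) 2) ^ 2 = 0 := by
      linear_combination hu + hw - 2 * hd
    obtain ⟨a0, a1, a2⟩ := sum_sq_zero hs
    exact Subtype.ext (ext3 (sub_eq_zero.1 a0) (sub_eq_zero.1 a1) (sub_eq_zero.1 a2))
  · right
    have hs : ((u : E3) 0 + (w : E3) 0) ^ 2 + ((u : E3) 1 + (w : E3) 1) ^ 2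
        + ((u : E3) 2 + (w : E3) 2) ^ 2 = 0 := by
      linear_combination hu + hw + 2 * hd
    obtain ⟨a0, a1, a2⟩ := sum_sq_zero hs
    apply ext3 <;> simp only [PiLp.neg_apply]
    · exact eq_neg_of_add_eq_zero_left a0
    · exact eq_neg_of_add_eq_zero_left a1
    · exact eq_neg_of_add_eq_zero_left a2

/-- **There is a topological quandle structure on the 2-sphere which is isomorphic neither to the
trivial quandle nor to any spherical quandle** (not even by a discontinuous bijection):
the twist operation, `u * v` being `u` turned about the third axis by `2 π exp (u_2 - v_2)`. -/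
theorem result :
    IsTopQuandle twistOp ∧
      (∀ e : S2 ≃ S2, ¬ Respects e twistOp trivialOp) ∧
      (∀ ψ : ℝ, 0 < ψ → ψ < 2 * π → ∀ e : S2 ≃ S2, ¬ Respects e twistOp (sphericalOp ψ)) := by
  refine ⟨isTopQuandle_twistOp, ?_, ?_⟩
  · intro e he
    exact twist_east_ne (e.injective (he east north))
  · intro ψ h0 h1 e he
    have hN : sphericalOp ψ (e north) (e east) = e north := by
      rw [← he, twist_north]
    have hS : sphericalOp ψ (e south) (e east) = e south := by
      rw [← he, twist_south]
    rcases fixed_spherical h0 h1 hN with h | h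
    · exact east_ne_north (e.injective h).symm
    · rcases fixed_spherical h0 h1 hS with h' | h'
      · exact east_ne_south (e.injective h').symm
      · exact north_ne_south (e.injective (Subtype.ext (h.trans h'.symm)))

end Pool.Agent.Results.MP_6238b5_al.TwistQuandle
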